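import Mathlib

/-!
# PDT: planar realizability of degree sequences is NP-hard. Definitions of the combinatorial part

`Match3 t L`: the 3-dimensional matching problem.  `trips F p`: the instance of the 3-dimensional
matching problem belonging to the formula `F`, if all indices of variables of `F` and the number of
clauses are less than `p` (Karp; Garey and Johnson).
-/

set_option autoImplicit false

namespace Pool.Agent.PDT

/-- 3-dimensional matching: `L` is a list of triples `(x, y, z)`; is there a set `M` of triples of
`L` such that every `i < t` is the first component of exactly one element of `M`, the second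
component of exactly one element and the third component of exactly one element? -/
def Match3 (t : ℕ) (L : List (ℕ × ℕ × ℕ)) : Prop :=
  ∃ M : Finset (ℕ × ℕ × ℕ), (∀ e ∈ M, e ∈ L) ∧
    (∀ i < t, ∃! e, e ∈ M ∧ e.1 = i) ∧ (∀ i < t, ∃! e, e ∈ M ∧ e.2.1 = i) ∧
    (∀ i < t, ∃! e, e ∈ M ∧ e.2.2 = i)

/-- admissible instances: all components are less than `t`, no triple is repeated -/
def Ok3 (t : ℕ) (L : List (ℕ × ℕ × ℕ)) : Prop :=
  L.Nodup ∧ ∀ e ∈ L, e.1 < t ∧ e.2.1 < t ∧ e.2.2 < t

/-- The literal `(i, b)` belongs to the `j`-th clause of `F` (or `F` has no `j`-th clause). -/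
def Lit (F : List (List (ℕ × Bool))) (j i : ℕ) (b : Bool) : Prop :=
  ∀ C, F[j]? = some C → (i, b) ∈ C

/-- the tips of the wheels -/
def tip (p i j : ℕ) (b : Bool) : ℕ := 2 * (i * p + j) + (if b then 1 else 0)

open Classical in
/-- the triples of the tip `(i, j, b)`, apart from the wheel -/
noncomputable def tipTrips (F : List (List (ℕ × Bool))) (p i j : ℕ) (b : Bool) :
    List (ℕ × ℕ × ℕ) :=
  (if Lit F j i b then [(tip p i j b, p * p + j, p * p + j)] else []) ++
    (List.range (p * (p - 1))).map fun k => (tip p i j b, p * p + p + k, p * p + p + k)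

/-- the instance of the 3-dimensional matching problem, with `t = 2 p²` -/
noncomputable def trips (F : List (List (ℕ × Bool))) (p : ℕ) : List (ℕ × ℕ × ℕ) :=
  (List.range p).flatMap fun i => (List.range p).flatMap fun j =>
    [(tip p i j false, i * p + j, i * p + j), (tip p i j true, i * p + (j + 1) % p, i * p + j)] ++
      (tipTrips F p i j false ++ tipTrips F p i j true)

end Pool.Agent.PDT
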