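import Mathlib
import Pool.Agent.PDT.Defs

/-!
# PDT: statements of the modules of the combinatorial part (SAT to 3-dimensional matching)
-/

set_option autoImplicit false

namespace Pool.Agent.PDT

/-- OKT (about 100 lines). Components: `tip p i j b < 2 p²`; the second and third components are
`< p * p`, or `p * p + j` with `j < p`, or `p * p + p + k` with `k < p * (p - 1)`. No repetition:
the tip determines `i, j, b`; the two wheel triples and the others are distinguished by the tip
(`b`) and by the second component (`< p²`, in `[p², p² + p)`, `>= p² + p`). -/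
def OktStmt : Prop :=
  ∀ (F : List (List (ℕ × Bool))) (p : ℕ), Ok3 (2 * (p * p)) (trips F p)

/-- SOU (about 200 lines). If the instance has a matching then the formula is satisfiable. The
third component `i * p + j` (`i, j < p`) is only in the two wheel triples `T1 i j` (first one) and
`T2 i j` (second one); the second component `i * p + j` is only in `T1 i j` and in
`T2 i j'`, `(j' + 1) % p = j`. If `T1 i j ∈ M` then `T2 i j' ∉ M`, so `T1 i j' ∈ M`; going round,
all `T1 i j` are in `M`, or none. Put `v i = true` iff `T1 i 0 ∈ M`. For the `j`-th clause of `F`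
(`j < p`) the second component `p * p + j` is covered by a triple `(tip p i j b, ..)` with
`Lit F j i b`; its tip is not covered by the wheel triple, so `b = v i`. -/
def SouStmt : Prop :=
  ∀ (F : List (List (ℕ × Bool))) (p : ℕ), F.length ≤ p → Match3 (2 * (p * p)) (trips F p) →
    ∃ v : ℕ → Bool, ∀ C ∈ F, ∃ l ∈ C, v l.1 = l.2

/-- COM (about 250 lines). If the formula is satisfiable (indices `< p`, `1 <= p`) then the
instance has a matching. `M`: `T1 i j` if `v i`, otherwise `T2 i j` (`i, j < p`); for `j < p` choose
`c j < p` with `Lit F j (c j) (v (c j))`, and take `(tip p (c j) j (v (c j)), p² + j, p² + j)`; for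
`i, j < p`, `i ≠ c j` take `(tip p i j (v i), p² + p + k, p² + p + k)` with
`k = j * (p - 1) + (if i < c j then i else i - 1)`. -/
def ComStmt : Prop :=
  ∀ (F : List (List (ℕ × Bool))) (p : ℕ), 1 ≤ p → (∀ C ∈ F, ∀ l ∈ C, l.1 < p) →
    (∃ v : ℕ → Bool, ∀ C ∈ F, ∃ l ∈ C, v l.1 = l.2) → Match3 (2 * (p * p)) (trips F p)

end Pool.Agent.PDT
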