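import Mathlib
import Pool.Agent.PDT.Stmts
import Pool.Agent.PDM.Stmts
import Pool.Agent.Common_CookLevin.CookLevin

/-!
# PDT: planar realizability of degree sequences is NP-hard: the problem, the printed list, and the
statements of the second half

The sequence of squad PDM for the instance `(t, L)` of the 3-dimensional matching problem, as a
list (`seqL t L`), with closed formulas over `ℕ`.
-/

set_option autoImplicit false

namespace Pool.Agent.PDT

open Pool.Agent.PDN Pool.Agent.PDM Pool.Agent.Common_CookLevin Pool.Agent.Helper32_HCK Turing

/-! ### The decision problem -/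

/-- a list of natural numbers as a word: each entry `v` is written as `v` times `true`, followed by
`false` (unary notation) -/
def encSeq (l : List ℕ) : List Bool := l.flatMap fun v => List.replicate v true ++ [false]

theorem encSeq_injective : Function.Injective encSeq := by
  have key : ∀ v v' : ℕ, ∀ x x' : List Bool,
      List.replicate v true ++ (false :: x) = List.replicate v' true ++ (false :: x') →
      v = v' ∧ x = x' := by
    intro v
    induction v with
    | zero =>
      intro v' x x' h
      cases v' with
      | zero => exact ⟨rfl, by simpa using h⟩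
      | succ v' => simp [List.replicate_succ] at h
    | succ v ih =>
      intro v' x x' h
      cases v' with
      | zero => simp [List.replicate_succ] at h
      | succ v' =>
        have h' : List.replicate v true ++ (false :: x) =
            List.replicate v' true ++ (false :: x') := by
          simpa [List.replicate_succ] using h
        obtain ⟨h1, h2⟩ := ih v' x x' h'
        exact ⟨by rw [h1], h2⟩
  intro l
  induction l with
  | nil =>
    intro l' h
    cases l' with
    | nil => rfl
    | cons a l' =>
      exfalso
      have := congrArg List.length h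
      simp [encSeq] at this
  | cons a l ih =>
    intro l' h
    cases l' with
    | nil =>
      exfalso
      have := congrArg List.length h
      simp [encSeq] at this
    | cons a' l' =>
      have h1 : List.replicate a true ++ (false :: encSeq l) =
          List.replicate a' true ++ (false :: encSeq l') := by
        simpa [encSeq, List.flatMap_cons, List.append_assoc] using h
      obtain ⟨h2, h3⟩ := key _ _ _ _ h1
      rw [h2, ih h3]

/-- The decision problem: is the given finite list of natural numbers the list of the degrees of a
planar graph? -/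
def planarProblem : DecisionProblem where
  Inst := List ℕ
  Alph := Bool
  alphFintype := inferInstance
  enc := encSeq
  enc_injective := encSeq_injective
  Yes := fun l => Realizable (l : Multiset ℕ)

/-- NP-hardness: every language in NP is polynomial-time many-one reducible to `P` -/
def NPHard (P : DecisionProblem) : Prop :=
  ∀ L : Set (List Bool), InNP (languageProblem L) → PolyReduces (languageProblem L) P

/-! ### The list -/

/-- `PDM.code` -/
def codeN (t k i : ℕ) : ℕ := bs t ^ (2 * k) * (i + 1) + bs t ^ (2 * k + 1) * (i + 1) ^ 2

/-- `PDM.vA` -/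
def vAN (t k i : ℕ) : ℕ := 8 * (off t + codeN t k i)

/-- `PDM.vC` -/
def vCN (t : ℕ) (e : ℕ × ℕ × ℕ) : ℕ := vAN t 0 e.1 + vAN t 1 e.2.1 + vAN t 2 e.2.2

/-- `PDM.sA` -/
def sAN (t : ℕ) : ℕ :=
  ((List.range t).map fun i => vAN t 0 i + vAN t 1 i + vAN t 2 i).sum

/-- `PDM.vD` -/
def vDN (t : ℕ) : ℕ := 2 * sAN t + 9

/-- `PDM.sC` -/
def sCN (t : ℕ) (L : List (ℕ × ℕ × ℕ)) : ℕ := (L.map (vCN t)).sum

/-- `PDM.vZ` -/
def vZN (t : ℕ) (L : List (ℕ × ℕ × ℕ)) : ℕ := sCN t L + (4 * t + 4) * vDN t - sAN t

/-- `PDM.sc` -/
def scN (t : ℕ) (L : List (ℕ × ℕ × ℕ)) : ℕ := 200 * (t + L.length + 2)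

/-- `PDM.n4` -/
def n4N (t : ℕ) (L : List (ℕ × ℕ × ℕ)) : ℕ :=
  scN t L * (4 + sCN t L + (4 * t + 4) * vDN t) - (15 * L.length + 22 * t + 28)

/-- `PDM.n3` -/
def n3N (t : ℕ) (L : List (ℕ × ℕ × ℕ)) : ℕ :=
  2 * (7 * t + L.length + 9 + n4N t L) - (2 * t + 6)

/-- the sequence as a list -/
def seqL (t : ℕ) (L : List (ℕ × ℕ × ℕ)) : List ℕ :=
  ((List.range t).flatMap fun i =>
      [2 * (scN t L * vAN t 0 i) - 1, 2 * (scN t L * vAN t 1 i) - 1, 2 * (scN t L * vAN t 2 i)]) ++
    (L.map fun e => 2 * (scN t L * vCN t e - 10)) ++
    [2 * scN t L - 1, 2 * (scN t L + 3), 2 * (scN t L * 3) - 1, 2 * (scN t L * 3 + 3)] ++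
    List.replicate (4 * t + 4) (2 * (scN t L * vDN t) - 1) ++
    [2 * (scN t L * vZN t L - (14 * L.length + 2 * t + 20))] ++
    List.replicate (n4N t L) 8 ++ List.replicate (n3N t L) 3

/-- the instance of squad PDM -/
def toIns (t : ℕ) (L : List (ℕ × ℕ × ℕ)) : Ins t :=
  Finset.univ.filter fun e : Fin t × Fin t × Fin t => ((e.1 : ℕ), (e.2.1 : ℕ), (e.2.2 : ℕ)) ∈ L

/-- the list belonging to a formula, `p` is one more than the length of the word of the formula -/
noncomputable def seqF (F : CNF) : List ℕ :=
  seqL (2 * (((encodeCNF F).length + 1) * ((encodeCNF F).length + 1)))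
    (trips F ((encodeCNF F).length + 1))

/-! ### Statements -/

/-- MAT (about 150 lines). `M` in `Match3` may be restricted to its elements with all components
`< t` (they are in `L`, so `Ok3` gives this); it has `t` elements because the first component is a
bijection onto `{i < t}`. Conversely `t` triples with different first components cover all first
components (`Finset.card` and injectivity on `Fin t`). -/
def MatStmt : Prop :=
  ∀ (t : ℕ) (L : List (ℕ × ℕ × ℕ)), Ok3 t L → (Match3 t L ↔ Matching (toIns t L))

/-- LST (about 200 lines). The list and the multiset of squad PDM: `(toIns t L).card = L.length`,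
`∑ p ∈ toIns t L, vC p = (L.map (vCN t)).sum` and the multiset of a function over `toIns t L` is
the one over `L`, because the map `(Fin t)³ → ℕ³` is injective and `L` has no repetition;
`Finset.univ` over a sum type is the sum of the parts. -/
def LstStmt : Prop :=
  ∀ (t : ℕ) (L : List (ℕ × ℕ × ℕ)), Ok3 t L → (seqL t L : Multiset ℕ) = seqm (toIns t L)

/-- TIM (polynomial time, PGen calculus of helper53). Suggested: `w = encodeCNF F`, loops over
`i, j < p = w.length + 1` and `k < p * (p - 1)`; the test `Lit F j i b` by scanning `w` (the
`j`-th clause exists and does not contain the literal: print nothing); all numbers are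
polynomials in `p`, `i`, `j`, `k`, except `L.length` and `sCN`, which are printed by the same loops
over the triples (one tick, resp. `vCN` ticks, for every triple). The order of the parts is the one
of `seqL`; if another order is easier, tell helper49: only the multiset matters. -/
def TimStmt : Prop :=
  Nonempty (TM2ComputableInPolyTime encodeCNF encSeq seqF)

/-- FNL (about 80 lines). `F.length < p` and all indices are `< p`, `p = (encodeCNF F).length + 1`.
`hard_of_sat`. -/
def FnlStmt : Prop :=
  OktStmt → SouStmt → ComStmt → MatStmt → LstStmt → TimStmt → Ne3Stmt → Su3Stmt →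
    NPHard planarProblem

end Pool.Agent.PDT
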